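import Pool.Agent.Lib.MP_7f477e_gt.A03

/-!
# A minimal hyperbolic foliation with all noncompact surfaces as leaves (MP_7f477e_gt, Q1)

All definitions of the statement are in `Pool/Agent/Lib/MP_7f477e_gt/Stmt.lean`.

The construction. The manifold is `ℍ × ℝ` modulo a group of pairs (isometry of `ℍ`, homeomorphism of
`ℝ`) which contains the translation of `ℝ` by 1; the first coordinates form a cocompact group acting
freely on `ℍ` (two copies of a free group `FF` of rank two, glued along its boundary word `c`). The
second coordinates come from an action of `FF` on the line with points whose stabilisers are exactly
the subgroups generated by the subfamilies of a universal family of chords. Every noncompact surface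
is the surface of a ribbon graph (part S), hence of a chord diagram (part T), hence the quotient of
`ℍ` by the subgroup generated by a subfamily of the chords (parts U, H).
-/

set_option autoImplicit false

open Pool.Agent.AllSurf

namespace Pool.Agent.Results.MP_7f477e_gt.AllSurfaces

/-- There are a closed 3-manifold `M` and a codimension one foliation `F` of `M` by hyperbolic
surfaces (complete, curvature `-1`, oriented), all of whose leaves are dense, such that every
connected noncompact orientable surface glued from polygons is homeomorphic to a leaf of `F`. -/
theorem result :
    ∃ (M : Type) (_ : TopologicalSpace M), ClosedThreeManifold M ∧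
      ∃ F : HypFoliation M, F.Complete ∧ F.Minimal ∧
        ∀ (D : Type) (P : PolygonGluing D), Infinite D →
          ∃ x : M, Nonempty (F.Leaf x ≃ₜ P.Surface) :=
  mainStmt

end Pool.Agent.Results.MP_7f477e_gt.AllSurfaces
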